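import Mathlib

/-!
# MP_fa2474_nt: monomials against zeta
-/

set_option autoImplicit false

namespace Pool.Agent.Run7.h921.DW

open Finset Complex MeasureTheory

/-- `n^{-1/2}` -/
noncomputable def gg (n : ℕ) : ℝ := Real.exp (-(1 / 2) * Real.log n)

theorem gg_pos (n : ℕ) : 0 < gg n := Real.exp_pos _

theorem gg_le {n : ℕ} (hn : 1 ≤ n) : gg n ≤ 1 := by
  unfold gg
  rw [Real.exp_le_one_iff]
  have := Real.log_nonneg (show (1 : ℝ) ≤ n by exact_mod_cast hn)
  linarith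

theorem gg_sqrt {n : ℕ} (hn : 1 ≤ n) : gg n = (Real.sqrt n)⁻¹ := by
  have h0 : (0 : ℝ) < n := by exact_mod_cast hn
  unfold gg
  rw [Real.sqrt_eq_rpow, Real.rpow_def_of_pos h0, ← Real.exp_neg]
  congr 1
  ring

/-- the sum of the `k^{-1/2}` -/
theorem sum_gg (K : ℕ) : ∑ k ∈ Icc 1 K, gg k ≤ 2 * Real.sqrt K := by
  induction K with
  | zero => simp
  | succ K ih =>
    rw [sum_Icc_succ_top (by omega)]
    have h1 : gg (K + 1) ≤ 2 * Real.sqrt ((K + 1 : ℕ) : ℝ) - 2 * Real.sqrt K := by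
      rw [gg_sqrt (by omega)]
      have hs : 0 < Real.sqrt ((K + 1 : ℕ) : ℝ) := Real.sqrt_pos.2 (by positivity)
      have hs0 : 0 ≤ Real.sqrt (K : ℝ) := Real.sqrt_nonneg _
      have e1 : Real.sqrt ((K + 1 : ℕ) : ℝ) ^ 2 = K + 1 := by
        rw [Real.sq_sqrt (by positivity)]
        push_cast
        ring
      have e2 : Real.sqrt (K : ℝ) ^ 2 = K := Real.sq_sqrt (by positivity)
      rw [inv_le_iff_one_le_mul₀ hs]
      nlinarith [sq_nonneg (Real.sqrt ((K + 1 : ℕ) : ℝ) - Real.sqrt (K : ℝ))]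
    linarith

/-- monomials -/
theorem cp {n : ℕ} (hn : 1 ≤ n) (t : ℝ) :
    (n : ℂ) ^ (-(1 / 2 + t * I)) = (gg n : ℂ) * cexp (I * ((t * -Real.log n : ℝ) : ℂ)) := by
  have h0 : (n : ℂ) ≠ 0 := Nat.cast_ne_zero.2 (by omega)
  unfold gg
  rw [Complex.cpow_def_of_ne_zero h0, ← Complex.natCast_log, ofReal_exp, ← Complex.exp_add]
  congr 1
  push_cast
  ring

theorem cp_conj {n : ℕ} (hn : 1 ≤ n) (t : ℝ) :
    (starRingEnd ℂ) ((n : ℂ) ^ (-(1 / 2 + t * I))) =
      (gg n : ℂ) * cexp (I * ((t * Real.log n : ℝ) : ℂ)) := by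
  rw [cp hn, map_mul, Complex.conj_ofReal, ← Complex.exp_conj, map_mul, Complex.conj_ofReal,
    Complex.conj_I]
  congr 2
  push_cast
  ring

theorem norm_cp {n : ℕ} (hn : 1 ≤ n) (t : ℝ) : ‖(n : ℂ) ^ (-(1 / 2 + t * I))‖ ≤ 1 := by
  rw [cp hn, norm_mul, mul_comm I, Complex.norm_exp_ofReal_mul_I, mul_one, Complex.norm_real,
    Real.norm_eq_abs, abs_of_pos (gg_pos n)]
  exact gg_le hn

theorem cont_cp {n : ℕ} (hn : 1 ≤ n) : Continuous fun t : ℝ => (n : ℂ) ^ (-(1 / 2 + t * I)) := by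
  simp_rw [cp hn]
  fun_prop

/-- the product of three monomials -/
theorem cp3 {k h l : ℕ} (hk : 1 ≤ k) (hh : 1 ≤ h) (hl : 1 ≤ l) (t : ℝ) :
    (k : ℂ) ^ (-(1 / 2 + t * I)) * ((h : ℂ) ^ (-(1 / 2 + t * I)) *
      (starRingEnd ℂ) ((l : ℂ) ^ (-(1 / 2 + t * I)))) =
    ((gg k * gg h * gg l : ℝ) : ℂ) *
      cexp (I * ((t * (Real.log l - Real.log (k * h : ℕ)) : ℝ) : ℂ)) := by
  have hk0 : (k : ℝ) ≠ 0 := Nat.cast_ne_zero.2 (by omega)
  have hh0 : (h : ℝ) ≠ 0 := Nat.cast_ne_zero.2 (by omega)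
  rw [cp hk, cp hh, cp_conj hl, Nat.cast_mul, Real.log_mul hk0 hh0]
  have e : cexp (I * ((t * (Real.log l - (Real.log k + Real.log h)) : ℝ) : ℂ)) =
      cexp (I * ((t * -Real.log k : ℝ) : ℂ)) * (cexp (I * ((t * -Real.log h : ℝ) : ℂ)) *
        cexp (I * ((t * Real.log l : ℝ) : ℂ))) := by
    rw [← Complex.exp_add, ← Complex.exp_add]
    congr 1
    push_cast
    ring
  rw [e]
  push_cast
  ring

/-- the distance of logarithms of different integers -/
theorem log_dist {m l : ℕ} (hm : 1 ≤ m) (hl : 1 ≤ l) (hne : m ≠ l) :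
    1 / (2 * (l : ℝ)) ≤ |Real.log l - Real.log m| := by
  have hm0 : (0 : ℝ) < m := by exact_mod_cast hm
  have hl0 : (0 : ℝ) < l := by exact_mod_cast hl
  have hl1 : (1 : ℝ) ≤ l := by exact_mod_cast hl
  rcases Nat.lt_or_gt_of_ne hne with h | h
  · have h1 : (m : ℝ) + 1 ≤ l := by exact_mod_cast h
    have h2 := Real.one_sub_inv_le_log_of_pos (show (0 : ℝ) < l / m by positivity)
    rw [Real.log_div hl0.ne' hm0.ne', inv_div] at h2
    refine le_trans ?_ (h2.trans (le_abs_self _))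
    rw [div_le_iff₀ (by positivity)]
    have : (m : ℝ) / l * l = m := div_mul_cancel₀ _ hl0.ne'
    nlinarith
  · have h1 : (l : ℝ) + 1 ≤ m := by exact_mod_cast h
    have h2 := Real.one_sub_inv_le_log_of_pos (show (0 : ℝ) < m / l by positivity)
    rw [Real.log_div hm0.ne' hl0.ne', inv_div] at h2
    rw [abs_sub_comm]
    refine le_trans ?_ (h2.trans (le_abs_self _))
    have h3 : (l : ℝ) / m ≤ l / (l + 1) := div_le_div_of_nonneg_left hl0.le (by linarith) h1
    have h4 : 1 / (2 * (l : ℝ)) ≤ 1 - l / (l + 1) := by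
      have : 1 - (l : ℝ) / (l + 1) = 1 / (l + 1) := by
        field_simp
        ring
      rw [this]
      exact one_div_le_one_div_of_le (by linarith) (by linarith)
    linarith

theorem cont_zeta : Continuous fun t : ℝ => riemannZeta (1 / 2 + t * I) := by
  rw [continuous_iff_continuousAt]
  intro t
  have h1 : (1 / 2 + t * I : ℂ) ≠ 1 := by
    intro h
    have := congrArg Complex.re h
    simp at this
  exact ContinuousAt.comp (g := riemannZeta) (f := fun t : ℝ => (1 / 2 + t * I : ℂ))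
    (differentiableAt_riemannZeta h1).continuousAt (by fun_prop)

/-- **monomials against zeta** -/
theorem h2core {T a b : ℝ} (hT : 1 ≤ T) (hab : a ≤ b) (w : ℝ → ℝ) (hwc : Continuous w)
    (hw : ∀ t ∈ Set.Icc a b, |w t| ≤ 1)
    (hW1 : ∀ lam : ℝ, lam ≠ 0 → ‖∫ t in a..b, (w t : ℂ) * cexp (I * (t * lam : ℝ))‖ ≤
      100 / (T * lam ^ 2))
    (hW2 : ∫ t in a..b, w t = 2 / 3 * (b - a)) (K K1 : ℕ) (ps : ℕ → ℝ)
    (hps : ∀ k, 0 ≤ ps k ∧ ps k ≤ 1) (hps0 : ∀ k, K1 < k → ps k = 0) {E : ℝ}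
    (hζ : ∀ t ∈ Set.Icc a b, ‖riemannZeta (1 / 2 + t * I) -
      ∑ k ∈ Icc 1 K, (ps k : ℂ) * (k : ℂ) ^ (-(1 / 2 + t * I))‖ ≤ E)
    {h l : ℕ} (hh : 1 ≤ h) (hl : 1 ≤ l) (hlK : l ≤ K) (hps1 : ∀ k, 1 ≤ k → k ≤ l → ps k = 1) :
    ‖(∫ t in a..b, (w t : ℂ) * (riemannZeta (1 / 2 + t * I) * ((h : ℂ) ^ (-(1 / 2 + t * I)) *
        (starRingEnd ℂ) ((l : ℂ) ^ (-(1 / 2 + t * I)))))) -
      (if h ∣ l then ((2 / 3 * (b - a) / l : ℝ) : ℂ) else 0)‖ ≤
      E * (b - a) + 400 * (l : ℝ) ^ 2 / T * (2 * Real.sqrt K1) := by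
  have hT0 : 0 < T := by linarith
  have hl0 : (0 : ℝ) < l := by exact_mod_cast hl
  have hcm : Continuous fun t : ℝ => (h : ℂ) ^ (-(1 / 2 + t * I)) *
      (starRingEnd ℂ) ((l : ℂ) ^ (-(1 / 2 + t * I))) :=
    (cont_cp hh).mul (Complex.continuous_conj.comp (cont_cp hl))
  have hcw : Continuous fun t : ℝ => (w t : ℂ) := Complex.continuous_ofReal.comp hwc
  have hcs : ∀ k ∈ Icc 1 K, Continuous fun t : ℝ => (w t : ℂ) * ((k : ℂ) ^ (-(1 / 2 + t * I)) *
      ((h : ℂ) ^ (-(1 / 2 + t * I)) * (starRingEnd ℂ) ((l : ℂ) ^ (-(1 / 2 + t * I))))) :=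
    fun k hk => hcw.mul ((cont_cp (mem_Icc.1 hk).1).mul hcm)
  have hcS : Continuous fun t : ℝ => ∑ k ∈ Icc 1 K, (ps k : ℂ) * (k : ℂ) ^ (-(1 / 2 + t * I)) :=
    continuous_finsetSum _ fun k hk => continuous_const.mul (cont_cp (mem_Icc.1 hk).1)
  have hcE : Continuous fun t : ℝ => (w t : ℂ) * ((riemannZeta (1 / 2 + t * I) -
      ∑ k ∈ Icc 1 K, (ps k : ℂ) * (k : ℂ) ^ (-(1 / 2 + t * I))) * ((h : ℂ) ^ (-(1 / 2 + t * I)) *
      (starRingEnd ℂ) ((l : ℂ) ^ (-(1 / 2 + t * I))))) :=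
    hcw.mul ((cont_zeta.sub hcS).mul hcm)
  have hsplit : (∫ t in a..b, (w t : ℂ) * (riemannZeta (1 / 2 + t * I) *
      ((h : ℂ) ^ (-(1 / 2 + t * I)) * (starRingEnd ℂ) ((l : ℂ) ^ (-(1 / 2 + t * I)))))) =
      (∫ t in a..b, (w t : ℂ) * ((riemannZeta (1 / 2 + t * I) -
      ∑ k ∈ Icc 1 K, (ps k : ℂ) * (k : ℂ) ^ (-(1 / 2 + t * I))) * ((h : ℂ) ^ (-(1 / 2 + t * I)) *
      (starRingEnd ℂ) ((l : ℂ) ^ (-(1 / 2 + t * I)))))) +
      ∑ k ∈ Icc 1 K, (ps k : ℂ) * ∫ t in a..b, (w t : ℂ) * ((k : ℂ) ^ (-(1 / 2 + t * I)) *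
      ((h : ℂ) ^ (-(1 / 2 + t * I)) * (starRingEnd ℂ) ((l : ℂ) ^ (-(1 / 2 + t * I))))) := by
    simp_rw [← intervalIntegral.integral_const_mul]
    rw [← intervalIntegral.integral_finsetSum, ← intervalIntegral.integral_add]
    · refine intervalIntegral.integral_congr fun t _ => ?_
      simp only [sub_mul, mul_sub, sum_mul, mul_sum]
      have e1 : ∀ k ∈ Icc 1 K, (ps k : ℂ) * ((w t : ℂ) * ((k : ℂ) ^ (-(1 / 2 + t * I)) *
          ((h : ℂ) ^ (-(1 / 2 + t * I)) * (starRingEnd ℂ) ((l : ℂ) ^ (-(1 / 2 + t * I)))))) =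
          (w t : ℂ) * ((ps k : ℂ) * (k : ℂ) ^ (-(1 / 2 + t * I)) *
          ((h : ℂ) ^ (-(1 / 2 + t * I)) * (starRingEnd ℂ) ((l : ℂ) ^ (-(1 / 2 + t * I))))) :=
        fun k _ => by ring
      rw [sum_congr rfl e1]
      ring
    · exact hcE.intervalIntegrable _ _
    · exact (continuous_finsetSum _ fun k hk =>
        continuous_const.mul (hcs k hk)).intervalIntegrable _ _
    · exact fun k hk => (continuous_const.mul (hcs k hk)).intervalIntegrable _ _
  -- the error term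
  have hE0 : 0 ≤ E := (norm_nonneg _).trans (hζ a ⟨le_rfl, hab⟩)
  have herr : ‖∫ t in a..b, (w t : ℂ) * ((riemannZeta (1 / 2 + t * I) -
      ∑ k ∈ Icc 1 K, (ps k : ℂ) * (k : ℂ) ^ (-(1 / 2 + t * I))) * ((h : ℂ) ^ (-(1 / 2 + t * I)) *
      (starRingEnd ℂ) ((l : ℂ) ^ (-(1 / 2 + t * I)))))‖ ≤ E * (b - a) := by
    have := intervalIntegral.norm_integral_le_of_norm_le_const (a := a) (b := b) (C := E)
      (f := fun t : ℝ => (w t : ℂ) * ((riemannZeta (1 / 2 + t * I) -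
        ∑ k ∈ Icc 1 K, (ps k : ℂ) * (k : ℂ) ^ (-(1 / 2 + t * I))) * ((h : ℂ) ^ (-(1 / 2 + t * I)) *
        (starRingEnd ℂ) ((l : ℂ) ^ (-(1 / 2 + t * I)))))) ?_
    · rw [abs_of_nonneg (by linarith)] at this
      exact this
    · intro t ht
      rw [Set.uIoc_of_le hab] at ht
      have ht' : t ∈ Set.Icc a b := ⟨ht.1.le, ht.2⟩
      rw [norm_mul, norm_mul, norm_mul, RCLike.norm_conj, Complex.norm_real, Real.norm_eq_abs]
      have c1 := hw t ht'
      have c2 := hζ t ht'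
      have c3 := norm_cp hh t
      have c4 := norm_cp hl t
      calc |w t| * (_ * (_ * _)) ≤ 1 * (E * (1 * 1)) := by gcongr
        _ = E := by ring
  -- one term
  have hterm : ∀ k ∈ Icc 1 K, ‖(ps k : ℂ) * (∫ t in a..b, (w t : ℂ) * ((k : ℂ) ^ (-(1 / 2 + t * I)) *
      ((h : ℂ) ^ (-(1 / 2 + t * I)) * (starRingEnd ℂ) ((l : ℂ) ^ (-(1 / 2 + t * I)))))) -
      (if k * h = l then ((2 / 3 * (b - a) / l : ℝ) : ℂ) else 0)‖ ≤
      if k ≤ K1 then 400 * (l : ℝ) ^ 2 / T * gg k else 0 := by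
    intro k hk
    have hk1 := (mem_Icc.1 hk).1
    have e1 : (∫ t in a..b, (w t : ℂ) * ((k : ℂ) ^ (-(1 / 2 + t * I)) *
        ((h : ℂ) ^ (-(1 / 2 + t * I)) * (starRingEnd ℂ) ((l : ℂ) ^ (-(1 / 2 + t * I)))))) =
        ((gg k * gg h * gg l : ℝ) : ℂ) * ∫ t in a..b, (w t : ℂ) *
          cexp (I * ((t * (Real.log l - Real.log (k * h : ℕ)) : ℝ) : ℂ)) := by
      rw [← intervalIntegral.integral_const_mul]
      refine intervalIntegral.integral_congr fun t _ => ?_
      simp only [cp3 hk1 hh hl t]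
      ring
    by_cases hkh : k * h = l
    · rw [if_pos hkh]
      have hkl : k ≤ l := hkh ▸ Nat.le_mul_of_pos_right k (by omega)
      have hps1' := hps1 k hk1 hkl
      have hgg : gg k * gg h * gg l = 1 / l := by
        unfold gg
        rw [← Real.exp_add, ← Real.exp_add, ← hkh]
        have hk0 : (k : ℝ) ≠ 0 := Nat.cast_ne_zero.2 (by omega)
        have hh0 : (h : ℝ) ≠ 0 := Nat.cast_ne_zero.2 (by omega)
        have hkh0 : (0 : ℝ) < ((k * h : ℕ) : ℝ) := by
          have : 0 < k * h := Nat.mul_pos hk1 hh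
          exact_mod_cast this
        have e2 : -(1 / 2) * Real.log k + -(1 / 2) * Real.log h +
            -(1 / 2) * Real.log ((k * h : ℕ) : ℝ) = -Real.log ((k * h : ℕ) : ℝ) := by
          have : Real.log ((k * h : ℕ) : ℝ) = Real.log k + Real.log h := by
            rw [Nat.cast_mul, Real.log_mul hk0 hh0]
          rw [this]
          ring
        rw [e2, Real.exp_neg, Real.exp_log hkh0, one_div]
      have e3 : (∫ t in a..b, (w t : ℂ) *
          cexp (I * ((t * (Real.log l - Real.log (k * h : ℕ)) : ℝ) : ℂ))) =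
          ((2 / 3 * (b - a) : ℝ) : ℂ) := by
        rw [← hW2, ← intervalIntegral.integral_ofReal]
        refine intervalIntegral.integral_congr fun t _ => ?_
        simp only [hkh, sub_self, mul_zero, ofReal_zero, Complex.exp_zero, mul_one]
      rw [e1, e3, hgg, hps1']
      have e4 : ((1 : ℝ) : ℂ) * (((1 / l : ℝ) : ℂ) * ((2 / 3 * (b - a) : ℝ) : ℂ)) -
          ((2 / 3 * (b - a) / l : ℝ) : ℂ) = 0 := by
        push_cast
        ring
      rw [e4, norm_zero]
      split_ifs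
      · have := gg_pos k
        positivity
      · exact le_rfl
    · rw [if_neg hkh, sub_zero]
      by_cases hkK : k ≤ K1
      · rw [if_pos hkK, e1, norm_mul, norm_mul, Complex.norm_real, Complex.norm_real,
          Real.norm_eq_abs, Real.norm_eq_abs, abs_of_nonneg (hps k).1,
          abs_of_pos (mul_pos (mul_pos (gg_pos k) (gg_pos h)) (gg_pos l))]
        have hd := log_dist (Nat.mul_pos hk1 hh) hl hkh
        set lam : ℝ := Real.log l - Real.log ((k * h : ℕ) : ℝ) with hlam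
        have hlam0 : lam ≠ 0 := by
          intro h0
          rw [h0, abs_zero] at hd
          have : 0 < 1 / (2 * (l : ℝ)) := by positivity
          linarith
        have c1 := hW1 lam hlam0
        have c2 : 100 / (T * lam ^ 2) ≤ 400 * (l : ℝ) ^ 2 / T := by
          have c3 : (1 / (2 * (l : ℝ))) ^ 2 ≤ lam ^ 2 := by
            rw [← sq_abs lam]
            exact pow_le_pow_left₀ (by positivity) hd 2
          have c4 : 0 < lam ^ 2 := by positivity
          rw [div_le_div_iff₀ (by positivity) hT0]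
          have c5 : (1 / (2 * (l : ℝ))) ^ 2 * (4 * (l : ℝ) ^ 2) = 1 := by
            field_simp
            ring
          have c6 : 1 ≤ lam ^ 2 * (4 * (l : ℝ) ^ 2) := by
            rw [← c5]
            exact mul_le_mul_of_nonneg_right c3 (by positivity)
          nlinarith
        have c7 : 0 ≤ 400 * (l : ℝ) ^ 2 / T := by positivity
        calc ps k * (gg k * gg h * gg l * _) ≤ 1 * (gg k * 1 * 1 * (400 * (l : ℝ) ^ 2 / T)) := by
              have g1 := gg_pos k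
              have g2 := gg_pos h
              have g3 := gg_pos l
              have g4 := gg_le hh
              have g5 := gg_le hl
              have g6 := (hps k).2
              have g7 := (hps k).1
              have g8 := c1.trans c2
              gcongr
          _ = _ := by ring
      · rw [if_neg hkK, hps0 k (by omega)]
        simp
  -- the main term
  have hmain : ∑ k ∈ Icc 1 K, (if k * h = l then ((2 / 3 * (b - a) / l : ℝ) : ℂ) else 0) =
      if h ∣ l then ((2 / 3 * (b - a) / l : ℝ) : ℂ) else 0 := by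
    by_cases hd : h ∣ l
    · rw [if_pos hd]
      obtain ⟨c, hc⟩ := hd
      have hc1 : 1 ≤ c := by
        rcases Nat.eq_zero_or_pos c with h0 | h0
        · rw [h0, mul_zero] at hc
          omega
        · exact h0
      rw [sum_eq_single c]
      · rw [if_pos (by rw [hc, mul_comm])]
      · intro k _ hkc
        rw [if_neg]
        intro hk
        apply hkc
        rw [hc, mul_comm h c] at hk
        exact Nat.eq_of_mul_eq_mul_right hh hk
      · intro hcn
        exfalso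
        apply hcn
        rw [mem_Icc]
        refine ⟨hc1, le_trans ?_ hlK⟩
        rw [hc]
        exact Nat.le_mul_of_pos_left c hh
    · rw [if_neg hd]
      refine sum_eq_zero fun k _ => ?_
      rw [if_neg]
      intro hk
      exact hd ⟨k, by rw [← hk, mul_comm]⟩
  rw [hsplit, ← hmain, add_sub_assoc, ← sum_sub_distrib]
  refine (norm_add_le _ _).trans (add_le_add herr ?_)
  refine (norm_sum_le _ _).trans ((sum_le_sum hterm).trans ?_)
  rw [← sum_filter]
  calc ∑ k ∈ (Icc 1 K).filter (fun k => k ≤ K1), 400 * (l : ℝ) ^ 2 / T * gg k ≤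
      ∑ k ∈ Icc 1 K1, 400 * (l : ℝ) ^ 2 / T * gg k := by
        refine sum_le_sum_of_subset_of_nonneg ?_ fun k _ _ => ?_
        · intro k hk
          rw [mem_filter, mem_Icc] at hk
          rw [mem_Icc]
          exact ⟨hk.1.1, hk.2⟩
        · have := gg_pos k
          positivity
    _ = 400 * (l : ℝ) ^ 2 / T * ∑ k ∈ Icc 1 K1, gg k := by rw [mul_sum]
    _ ≤ _ := mul_le_mul_of_nonneg_left (sum_gg K1) (by positivity)

end Pool.Agent.Run7.h921.DW
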