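import Pool.Agent.Run7.h74.DW.Iface
import Pool.Agent.Run7.h921.DW.H2a

/-!
# MP_fa2474_nt: piece H2, monomials against zeta
-/

set_option autoImplicit false

namespace Pool.Agent.Run7.h921.DW

open Finset Complex MeasureTheory Filter
open Pool.Agent.Q97.UM (zt dp N2 S_BLZ)
open Pool.Agent.Run7.h74.DW

theorem wt_cont (a b : ℝ) : Continuous (wt a b) := by
  unfold wt
  fun_prop

theorem wt_le {a b t : ℝ} (hab : a < b) (ht : t ∈ Set.Icc a b) : |wt a b t| ≤ 1 := by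
  unfold wt
  have h1 : 0 < (b - a) ^ 2 := by
    have : 0 < b - a := by linarith
    positivity
  have h2 : 0 ≤ 4 * (t - a) * (b - t) :=
    mul_nonneg (mul_nonneg (by norm_num) (by linarith [ht.1])) (by linarith [ht.2])
  rw [abs_of_nonneg (div_nonneg h2 h1.le), div_le_one h1]
  nlinarith [sq_nonneg ((t - a) - (b - t))]

theorem t_H2 : J_H2 := by
  intro hWE hBLZ
  obtain ⟨ψ, C, -, h98, h54, h01, hC0, hev⟩ := hBLZ
  have h3 : ∀ᶠ T : ℝ in atTop, 3 * C + 800 ≤ T ^ (1 / 8 : ℝ) :=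
    (tendsto_rpow_atTop (by norm_num)).eventually_ge_atTop _
  filter_upwards [hev, h3, eventually_ge_atTop (10 : ℝ)] with T hT h3 hT10
  intro a b hab h l hh hl hhT hlT
  have hT0 : 0 < T := by linarith
  have hT1 : 1 < T := by linarith
  have hlog : 0 < Real.log T := Real.log_pos hT1
  obtain ⟨ha, hab1, hb⟩ := hab
  have hab' : a < b := by linarith
  have hl0 : (0 : ℝ) < l := by exact_mod_cast hl
  have key := h2core (T := T) (a := a) (b := b) hT1.le hab'.le (wt a b) (wt_cont a b)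
    (fun t ht => wt_le hab' ht) (fun lam hlam => hWE.1 T a b lam hT10 ⟨ha, hab1, hb⟩ hlam)
    (hWE.2 T a b hT10 ⟨ha, hab1, hb⟩) ⌊T ^ (2 : ℝ)⌋₊ ⌊T ^ (5 / 4 : ℝ)⌋₊
    (fun k => ψ (Real.log k / Real.log T)) (fun k => h01 _) ?_ (E := C / T ^ 3) ?_ hh hl ?_ ?_
  · refine key.trans (le_trans ?_ h3)
    have c1 : C / T ^ 3 * (b - a) ≤ 3 * C := by
      have : b - a ≤ 3 * T := by linarith
      calc C / T ^ 3 * (b - a) ≤ C / T ^ 3 * (3 * T) := by
            exact mul_le_mul_of_nonneg_left this (by positivity)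
        _ = 3 * C * (1 / T ^ 2) := by
          field_simp
        _ ≤ 3 * C * 1 := by
          refine mul_le_mul_of_nonneg_left ?_ (by positivity)
          rw [div_le_one (by positivity)]
          nlinarith
        _ = 3 * C := mul_one _
    have c2 : 400 * (l : ℝ) ^ 2 / T * (2 * Real.sqrt (⌊T ^ (5 / 4 : ℝ)⌋₊ : ℝ)) ≤ 800 := by
      have d1 : (l : ℝ) ^ 2 ≤ T ^ (1 / 25 : ℝ) := by
        calc (l : ℝ) ^ 2 ≤ (T ^ (1 / 50 : ℝ)) ^ 2 := pow_le_pow_left₀ hl0.le hlT 2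
          _ = T ^ (1 / 25 : ℝ) := by
            rw [← Real.rpow_natCast, ← Real.rpow_mul hT0.le]
            norm_num
      have d2 : Real.sqrt (⌊T ^ (5 / 4 : ℝ)⌋₊ : ℝ) ≤ T ^ (5 / 8 : ℝ) := by
        calc Real.sqrt (⌊T ^ (5 / 4 : ℝ)⌋₊ : ℝ) ≤ Real.sqrt (T ^ (5 / 4 : ℝ)) :=
              Real.sqrt_le_sqrt (Nat.floor_le (by positivity))
          _ = T ^ (5 / 8 : ℝ) := by
            rw [Real.sqrt_eq_rpow, ← Real.rpow_mul hT0.le]
            norm_num
      have d3 : T ^ (1 / 25 : ℝ) * T ^ (5 / 8 : ℝ) ≤ T := by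
        rw [← Real.rpow_add hT0]
        calc T ^ (1 / 25 + 5 / 8 : ℝ) ≤ T ^ (1 : ℝ) :=
              Real.rpow_le_rpow_of_exponent_le hT1.le (by norm_num)
          _ = T := Real.rpow_one T
      rw [div_mul_eq_mul_div, div_le_iff₀ hT0]
      calc 400 * (l : ℝ) ^ 2 * (2 * Real.sqrt (⌊T ^ (5 / 4 : ℝ)⌋₊ : ℝ)) ≤
            400 * T ^ (1 / 25 : ℝ) * (2 * T ^ (5 / 8 : ℝ)) := by gcongr
        _ = 800 * (T ^ (1 / 25 : ℝ) * T ^ (5 / 8 : ℝ)) := by ring
        _ ≤ 800 * T := by gcongr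
    linarith
  · intro k hk
    have hk1 : T ^ (5 / 4 : ℝ) < k := (Nat.floor_lt (by positivity)).1 hk
    apply h54
    rw [le_div_iff₀ hlog]
    have := Real.log_le_log (by positivity) hk1.le
    rw [Real.log_rpow hT0] at this
    exact this
  · intro t ht
    have := hT (1 / 2 + t * I) ?_ ?_ ?_
    · exact this
    · simp
    · simp
      linarith [ht.1]
    · simp
      linarith [ht.2]
  · apply Nat.le_floor
    refine hlT.trans ?_
    exact Real.rpow_le_rpow_of_exponent_le hT1.le (by norm_num)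
  · intro k hk hkl
    apply h98
    rw [div_le_iff₀ hlog]
    have hk0 : (0 : ℝ) < k := by exact_mod_cast hk
    have h1 : Real.log k ≤ Real.log (T ^ (1 / 50 : ℝ)) :=
      Real.log_le_log hk0 (le_trans (by exact_mod_cast hkl) hlT)
    rw [Real.log_rpow hT0] at h1
    linarith

end Pool.Agent.Run7.h921.DW
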