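import Pool.Agent.H305R2.MertensM

/-!
# MP_fa2474_nt: the sum of `1/p` over `exp (D e^-4) < p ≤ exp D`
-/

set_option autoImplicit false

namespace Pool.Agent.Run7.h921.DW

open Filter Topology

/-- the sum over the primes up to `N` -/
noncomputable def AA (N : ℕ) : ℝ := ∑ p ∈ (Finset.Icc 1 N).filter Nat.Prime, (1 : ℝ) / p

/-- `loglog ⌊x⌋ - loglog x` tends to zero -/
theorem loglog_floor :
    Tendsto (fun x : ℝ => Real.log (Real.log (⌊x⌋₊ : ℝ)) - Real.log (Real.log x)) atTop (𝓝 0) := by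
  have h1 : Tendsto (fun x : ℝ => (⌊x⌋₊ : ℝ) / x) atTop (𝓝 1) := tendsto_nat_floor_div_atTop
  have h2 : Tendsto (fun x : ℝ => Real.log ((⌊x⌋₊ : ℝ) / x)) atTop (𝓝 0) := by
    have := (Real.continuousAt_log one_ne_zero).tendsto.comp h1
    rw [Real.log_one] at this
    exact this
  have h3 : Tendsto (fun x : ℝ => Real.log ((⌊x⌋₊ : ℝ) / x) / Real.log x + 1) atTop (𝓝 1) := by
    have := (h2.div_atTop Real.tendsto_log_atTop).add_const 1
    rw [zero_add] at this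
    exact this
  have h4 : Tendsto (fun x : ℝ => Real.log (Real.log ((⌊x⌋₊ : ℝ) / x) / Real.log x + 1)) atTop
      (𝓝 0) := by
    have := (Real.continuousAt_log one_ne_zero).tendsto.comp h3
    rw [Real.log_one] at this
    exact this
  refine h4.congr' ?_
  filter_upwards [eventually_ge_atTop (4 : ℝ)] with x hx
  have hx0 : 0 < x := by linarith
  have hf : (2 : ℝ) ≤ (⌊x⌋₊ : ℝ) := by
    have : 2 ≤ ⌊x⌋₊ := Nat.le_floor (by push_cast; linarith)
    exact_mod_cast this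
  have hl : 0 < Real.log x := Real.log_pos (by linarith)
  have hlf : 0 < Real.log (⌊x⌋₊ : ℝ) := Real.log_pos (by linarith)
  rw [← Real.log_div hlf.ne' hl.ne', Real.log_div (by linarith) hx0.ne']
  congr 1
  field_simp
  ring

/-- the sum up to `exp (c D)` -/
theorem mert_exp {M : ℝ} (hM : Tendsto (fun N : ℕ => AA N - Real.log (Real.log N)) atTop (𝓝 M))
    {c : ℝ} (hc : 0 < c) :
    Tendsto (fun D : ℝ => AA ⌊Real.exp (D * c)⌋₊ - Real.log D) atTop (𝓝 (M + Real.log c)) := by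
  have h0 : Tendsto (fun D : ℝ => Real.exp (D * c)) atTop atTop :=
    Real.tendsto_exp_atTop.comp (tendsto_id.atTop_mul_const hc)
  have h1 : Tendsto (fun D : ℝ => ⌊Real.exp (D * c)⌋₊) atTop atTop :=
    tendsto_nat_floor_atTop.comp h0
  have h2 := hM.comp h1
  have h3 := loglog_floor.comp h0
  have h4 := (h2.add h3).add_const (Real.log c)
  rw [add_zero] at h4
  refine h4.congr' ?_
  filter_upwards [eventually_gt_atTop (0 : ℝ)] with D hD
  simp only [Function.comp]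
  rw [Real.log_exp, Real.log_mul hD.ne' hc.ne']
  ring

/-- the primes between two bounds -/
theorem sum_between {x : ℝ} {N : ℕ} (hx0 : 0 ≤ x) (hx : ⌊x⌋₊ ≤ N) (s : Finset ℕ)
    (hs : ∀ p, p ∈ s ↔ p ∈ Finset.Icc 1 N ∧ p.Prime ∧ x < p) :
    ∑ p ∈ s, (1 : ℝ) / p = AA N - AA ⌊x⌋₊ := by
  unfold AA
  have h1 : (Finset.Icc 1 N).filter Nat.Prime = (Finset.Icc 1 ⌊x⌋₊).filter Nat.Prime ∪ s := by
    ext p
    rw [Finset.mem_union, Finset.mem_filter, Finset.mem_filter, hs, Finset.mem_Icc, Finset.mem_Icc]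
    constructor
    · rintro ⟨⟨h1, h2⟩, h3⟩
      by_cases h4 : p ≤ ⌊x⌋₊
      · exact Or.inl ⟨⟨h1, h4⟩, h3⟩
      · exact Or.inr ⟨⟨h1, h2⟩, h3, (Nat.floor_lt hx0).1 (by omega)⟩
    · rintro (⟨⟨h1, h2⟩, h3⟩ | ⟨⟨h1, h2⟩, h3, -⟩)
      · exact ⟨⟨h1, h2.trans hx⟩, h3⟩
      · exact ⟨⟨h1, h2⟩, h3⟩
  have h2 : Disjoint ((Finset.Icc 1 ⌊x⌋₊).filter Nat.Prime) s := by
    rw [Finset.disjoint_left]
    intro p hp hps
    rw [Finset.mem_filter, Finset.mem_Icc] at hp
    have h3 := ((hs p).1 hps).2.2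
    have h4 := (Nat.le_floor_iff hx0).1 hp.1.2
    linarith
  rw [h1, Finset.sum_union h2]
  ring

end Pool.Agent.Run7.h921.DW
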