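import Pool.Agent.Run7.h74.DW.Iface
import Pool.Agent.Run7.h921.DW.MERa

/-!
# MP_fa2474_nt: piece MER, Mertens
-/

set_option autoImplicit false

namespace Pool.Agent.Run7.h921.DW

open Filter Topology
open Pool.Agent.Q97.UM (XB)
open Pool.Agent.Run7.h74.DW

theorem t_MER : S_MER := by
  obtain ⟨M, hM⟩ := Pool.Agent.H305R2.mertens_inv_tendsto
  have hM' : Tendsto (fun N : ℕ => AA N - Real.log (Real.log N)) atTop (𝓝 M) := hM
  have h1 := mert_exp hM' (c := 1) one_pos
  have h2 := mert_exp hM' (c := Real.exp (-((4 : ℕ) : ℝ))) (Real.exp_pos _)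
  have h3 := h1.sub h2
  rw [Real.log_one, Real.log_exp] at h3
  have e : M + 0 - (M + -((4 : ℕ) : ℝ)) = 4 := by
    push_cast
    ring
  rw [e] at h3
  refine h3.congr' ?_
  filter_upwards [eventually_gt_atTop (0 : ℝ)] with D hD
  have hle : Real.exp (D * Real.exp (-((4 : ℕ) : ℝ))) ≤ Real.exp D := by
    rw [Real.exp_le_exp]
    have : Real.exp (-((4 : ℕ) : ℝ)) ≤ 1 := by
      rw [Real.exp_le_one_iff]
      push_cast
      norm_num
    nlinarith
  have h4 : ∑ p ∈ PT D, (1 / p : ℝ) = AA ⌊Real.exp D⌋₊ - AA ⌊XB D 4⌋₊ := by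
    refine sum_between (Real.exp_pos _).le ?_ (PT D) ?_
    · exact Nat.floor_le_floor hle
    · intro p
      unfold PT
      rw [Finset.mem_filter]
      exact Iff.rfl
  rw [h4, mul_one]
  unfold XB
  ring

end Pool.Agent.Run7.h921.DW
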