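import Mathlib

/-!
# MP_fa2474_nt: the first odd harmonic, the finite sums
-/

set_option autoImplicit false

namespace Pool.Agent.Run7.h921.DW

open Finset

/-- a sum against the coefficients of `1 - 1/2 ∑ p^{-s}` -/
theorem vsum {Q : ℕ} (hQ : 1 ≤ Q) {P : Finset ℕ} (hP : ∀ p ∈ P, p.Prime ∧ p ≤ Q) (v F : ℕ → ℂ)
    (h1 : v 1 = 1) (h2 : ∀ p ∈ P, v p = -1 / 2) (h0 : ∀ n, n ≠ 1 → n ∉ P → v n = 0) :
    ∑ u ∈ Icc 1 Q, v u * F u = F 1 - 1 / 2 * ∑ p ∈ P, F p := by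
  classical
  have h1P : 1 ∉ P := fun h => Nat.not_prime_one (hP 1 h).1
  have hsub : insert 1 P ⊆ Icc 1 Q := by
    intro p hp
    rw [mem_insert] at hp
    rw [mem_Icc]
    rcases hp with rfl | hp
    · exact ⟨le_rfl, hQ⟩
    · exact ⟨(hP p hp).1.one_lt.le, (hP p hp).2⟩
  rw [← sum_subset hsub]
  · rw [sum_insert h1P, h1, one_mul, mul_sum, sub_eq_add_neg, ← sum_neg_distrib]
    congr 1
    refine sum_congr rfl fun p hp => ?_
    rw [h2 p hp]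
    ring
  · intro n _ hn
    rw [mem_insert, not_or] at hn
    rw [h0 n hn.1 hn.2, zero_mul]

/-- the main term -/
noncomputable def GG (X : ℝ) (h l : ℕ) : ℂ := if h ∣ l then ((X / l : ℝ) : ℂ) else 0

theorem main_id {Q : ℕ} (hQ : 1 ≤ Q) {P : Finset ℕ} (hP : ∀ p ∈ P, p.Prime ∧ p ≤ Q) (v : ℕ → ℂ)
    (h1 : v 1 = 1) (h2 : ∀ p ∈ P, v p = -1 / 2) (h0 : ∀ n, n ≠ 1 → n ∉ P → v n = 0)
    (X : ℝ) {h l : ℕ} (hl1 : 1 ≤ l) (hh : ∀ p ∈ P, ¬ p ∣ h) (hl : ∀ p ∈ P, ¬ p ∣ l) :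
    ∑ u ∈ Icc 1 Q, v u * ∑ u' ∈ Icc 1 Q, v u' * GG X (u * h) (u' * l) =
      ((1 - (∑ p ∈ P, (1 / p : ℝ)) / 4 : ℝ) : ℂ) * GG X h l := by
  classical
  have hl0 : (l : ℂ) ≠ 0 := Nat.cast_ne_zero.2 (by omega)
  have key : ∀ u, ∑ u' ∈ Icc 1 Q, v u' * GG X (u * h) (u' * l) =
      GG X (u * h) (1 * l) - 1 / 2 * ∑ q ∈ P, GG X (u * h) (q * l) :=
    fun u => vsum hQ hP v (fun u' => GG X (u * h) (u' * l)) h1 h2 h0
  rw [sum_congr rfl (fun u _ => by rw [key u]),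
    vsum hQ hP v (fun u => GG X (u * h) (1 * l) - 1 / 2 * ∑ q ∈ P, GG X (u * h) (q * l)) h1 h2 h0]
  -- the values
  have e1 : ∀ q ∈ P, GG X (1 * h) (q * l) = GG X h l * (1 / q) := by
    intro q hq
    have hqp := (hP q hq).1
    have hq0 : (q : ℂ) ≠ 0 := Nat.cast_ne_zero.2 hqp.ne_zero
    have hc : Nat.Coprime h q := ((Nat.Prime.coprime_iff_not_dvd hqp).2 (hh q hq)).symm
    have hiff : 1 * h ∣ q * l ↔ h ∣ l := by
      rw [one_mul]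
      exact ⟨fun hd => hc.dvd_of_dvd_mul_left hd, fun hd => Dvd.dvd.mul_left hd q⟩
    unfold GG
    by_cases hd : h ∣ l
    · rw [if_pos (hiff.2 hd), if_pos hd]
      push_cast
      field_simp
    · rw [if_neg (fun h' => hd (hiff.1 h')), if_neg hd, zero_mul]
  have e2 : ∀ p ∈ P, GG X (p * h) (1 * l) = 0 := by
    intro p hp
    unfold GG
    rw [if_neg]
    intro hd
    rw [one_mul] at hd
    exact hl p hp ((Dvd.intro h rfl).trans hd)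
  have e3 : ∀ p ∈ P, ∑ q ∈ P, GG X (p * h) (q * l) = GG X h l * (1 / p) := by
    intro p hp
    have hpp := (hP p hp).1
    have hp0 : (p : ℂ) ≠ 0 := Nat.cast_ne_zero.2 hpp.ne_zero
    rw [sum_eq_single p]
    · have hiff : p * h ∣ p * l ↔ h ∣ l := Nat.mul_dvd_mul_iff_left hpp.pos
      unfold GG
      by_cases hd : h ∣ l
      · rw [if_pos (hiff.2 hd), if_pos hd]
        push_cast
        field_simp
      · rw [if_neg (fun h' => hd (hiff.1 h')), if_neg hd, zero_mul]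
    · intro q hq hqp
      unfold GG
      rw [if_neg]
      intro hd
      have h4 : p ∣ q * l := (Dvd.intro h rfl).trans hd
      rcases (hpp.dvd_mul).1 h4 with h5 | h5
      · exact hqp ((Nat.prime_dvd_prime_iff_eq hpp (hP q hq).1).1 h5).symm
      · exact hl p hp h5
    · exact fun h' => absurd hp h'
  have e7 : ∑ q ∈ P, GG X (1 * h) (q * l) = GG X h l * ∑ q ∈ P, (1 / (q : ℂ)) := by
    rw [mul_sum]
    exact sum_congr rfl e1
  have e6 : ∑ p ∈ P, (GG X (p * h) (1 * l) - 1 / 2 * ∑ q ∈ P, GG X (p * h) (q * l)) =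
      -(1 / 2) * (GG X h l * ∑ p ∈ P, (1 / (p : ℂ))) := by
    rw [mul_sum, mul_sum]
    refine sum_congr rfl fun p hp => ?_
    rw [e2 p hp, e3 p hp]
    ring
  have e8 : GG X (1 * h) (1 * l) = GG X h l := by rw [one_mul, one_mul]
  have e9 : ((1 - (∑ p ∈ P, (1 / p : ℝ)) / 4 : ℝ) : ℂ) = 1 - (∑ p ∈ P, (1 / (p : ℂ))) / 4 := by
    push_cast
    rfl
  rw [e6, e7, e8, e9]
  ring

/-- **the finite sums** -/
theorem core {Q M : ℕ} (hQ : 1 ≤ Q) {P : Finset ℕ} (hP : ∀ p ∈ P, p.Prime ∧ p ≤ Q)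
    (v : ℕ → ℂ) (h1 : v 1 = 1) (h2 : ∀ p ∈ P, v p = -1 / 2) (h0 : ∀ n, n ≠ 1 → n ∉ P → v n = 0)
    (f : ℕ → ℂ) (hf : ∀ n, f n ≠ 0 → 1 ≤ n ∧ n ≤ M ∧ ∀ p ∈ P, ¬ p ∣ n) (X δ : ℝ) (hδ : 0 ≤ δ)
    (J : ℕ → ℕ → ℂ)
    (hJ : ∀ h l, 1 ≤ h → 1 ≤ l → h ≤ Q * M → l ≤ Q * M → ‖J h l - GG X h l‖ ≤ δ) :
    ‖(∑ h ∈ Icc 1 M, ∑ l ∈ Icc 1 M, (f h * (starRingEnd ℂ) (f l)) *
        ∑ u ∈ Icc 1 Q, v u * ∑ u' ∈ Icc 1 Q, v u' * J (u * h) (u' * l)) -
      ((1 - (∑ p ∈ P, (1 / p : ℝ)) / 4 : ℝ) : ℂ) *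
        ∑ h ∈ Icc 1 M, ∑ l ∈ Icc 1 M, (f h * (starRingEnd ℂ) (f l)) * J h l‖ ≤
      3 * (Q : ℝ) ^ 2 * (M : ℝ) ^ 2 * δ * ∑ n ∈ Icc 1 M, ‖f n‖ ^ 2 / n := by
  set κ : ℝ := 1 - (∑ p ∈ P, (1 / p : ℝ)) / 4 with hκ
  have hQ1 : (1 : ℝ) ≤ Q := by exact_mod_cast hQ
  have hv : ∀ n, ‖v n‖ ≤ 1 := by
    intro n
    by_cases hn1 : n = 1
    · rw [hn1, h1, norm_one]
    · by_cases hnP : n ∈ P
      · rw [h2 n hnP]
        norm_num
      · rw [h0 n hn1 hnP, norm_zero]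
        exact zero_le_one
  have hS0 : 0 ≤ ∑ p ∈ P, (1 / p : ℝ) := sum_nonneg fun p _ => by positivity
  have hS1 : ∑ p ∈ P, (1 / p : ℝ) ≤ Q := by
    have hPs : P ⊆ Icc 1 Q := by
      intro p hp
      rw [mem_Icc]
      exact ⟨(hP p hp).1.one_lt.le, (hP p hp).2⟩
    calc ∑ p ∈ P, (1 / p : ℝ) ≤ ∑ p ∈ P, (1 : ℝ) := by
          refine sum_le_sum fun p hp => ?_
          rw [div_le_one (by exact_mod_cast (hP p hp).1.pos)]
          exact_mod_cast (hP p hp).1.one_lt.le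
      _ = (P.card : ℝ) := by simp
      _ ≤ Q := by
        have := card_le_card hPs
        rw [Nat.card_Icc, Nat.add_sub_cancel] at this
        exact_mod_cast this
  have hκb : |κ| ≤ 1 + Q := by
    rw [hκ, abs_le]
    constructor <;> nlinarith
  -- one pair
  have hpair : ∀ h ∈ Icc 1 M, ∀ l ∈ Icc 1 M, ‖(f h * (starRingEnd ℂ) (f l)) *
      (∑ u ∈ Icc 1 Q, v u * ∑ u' ∈ Icc 1 Q, v u' * J (u * h) (u' * l)) -
      (κ : ℂ) * ((f h * (starRingEnd ℂ) (f l)) * J h l)‖ ≤ ‖f h‖ * ‖f l‖ * (3 * (Q : ℝ) ^ 2 * δ) := by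
    intro h hh l hl
    rw [mem_Icc] at hh hl
    by_cases hfh : f h = 0
    · rw [hfh]
      simp
    by_cases hfl : f l = 0
    · rw [hfl]
      simp
    have e0 : (f h * (starRingEnd ℂ) (f l)) *
        (∑ u ∈ Icc 1 Q, v u * ∑ u' ∈ Icc 1 Q, v u' * J (u * h) (u' * l)) -
        (κ : ℂ) * ((f h * (starRingEnd ℂ) (f l)) * J h l) =
        (f h * (starRingEnd ℂ) (f l)) *
        ((∑ u ∈ Icc 1 Q, v u * ∑ u' ∈ Icc 1 Q, v u' * (J (u * h) (u' * l) - GG X (u * h) (u' * l))) -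
          (κ : ℂ) * (J h l - GG X h l)) := by
      have := main_id hQ hP v h1 h2 h0 X hl.1 (hf h hfh).2.2 (hf l hfl).2.2
      have e5 : ∑ u ∈ Icc 1 Q, v u * ∑ u' ∈ Icc 1 Q, v u' *
          (J (u * h) (u' * l) - GG X (u * h) (u' * l)) =
          (∑ u ∈ Icc 1 Q, v u * ∑ u' ∈ Icc 1 Q, v u' * J (u * h) (u' * l)) -
          ∑ u ∈ Icc 1 Q, v u * ∑ u' ∈ Icc 1 Q, v u' * GG X (u * h) (u' * l) := by
        rw [← sum_sub_distrib]
        refine sum_congr rfl fun u _ => ?_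
        rw [← mul_sub, ← sum_sub_distrib]
        congr 1
        refine sum_congr rfl fun u' _ => ?_
        ring
      rw [e5, this, hκ]
      ring
    rw [e0, norm_mul, norm_mul, RCLike.norm_conj]
    refine mul_le_mul_of_nonneg_left ?_ (by positivity)
    have hM1 : 1 ≤ M := hh.1.trans hh.2
    have b1 : ‖∑ u ∈ Icc 1 Q, v u * ∑ u' ∈ Icc 1 Q, v u' *
        (J (u * h) (u' * l) - GG X (u * h) (u' * l))‖ ≤ Q * (Q * δ) := by
      calc _ ≤ ∑ u ∈ Icc 1 Q, ‖v u * ∑ u' ∈ Icc 1 Q, v u' *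
            (J (u * h) (u' * l) - GG X (u * h) (u' * l))‖ := norm_sum_le _ _
        _ ≤ ∑ u ∈ Icc 1 Q, ((Q : ℝ) * δ) := by
          refine sum_le_sum fun u hu => ?_
          rw [mem_Icc] at hu
          rw [norm_mul]
          have c1 : ‖∑ u' ∈ Icc 1 Q, v u' * (J (u * h) (u' * l) - GG X (u * h) (u' * l))‖ ≤
              Q * δ := by
            calc _ ≤ ∑ u' ∈ Icc 1 Q, ‖v u' * (J (u * h) (u' * l) - GG X (u * h) (u' * l))‖ :=
                  norm_sum_le _ _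
              _ ≤ ∑ u' ∈ Icc 1 Q, δ := by
                refine sum_le_sum fun u' hu' => ?_
                rw [mem_Icc] at hu'
                rw [norm_mul]
                have d1 := hJ (u * h) (u' * l) (Nat.mul_pos hu.1 hh.1) (Nat.mul_pos hu'.1 hl.1)
                  (Nat.mul_le_mul hu.2 hh.2) (Nat.mul_le_mul hu'.2 hl.2)
                calc ‖v u'‖ * ‖J (u * h) (u' * l) - GG X (u * h) (u' * l)‖ ≤ 1 * δ :=
                      mul_le_mul (hv u') d1 (norm_nonneg _) zero_le_one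
                  _ = δ := one_mul _
              _ = Q * δ := by
                rw [sum_const, Nat.card_Icc, Nat.add_sub_cancel, nsmul_eq_mul]
          calc ‖v u‖ * _ ≤ 1 * (Q * δ) := mul_le_mul (hv u) c1 (norm_nonneg _) zero_le_one
            _ = Q * δ := one_mul _
        _ = Q * (Q * δ) := by
          rw [sum_const, Nat.card_Icc, Nat.add_sub_cancel, nsmul_eq_mul]
    have b2 : ‖(κ : ℂ) * (J h l - GG X h l)‖ ≤ (1 + Q) * δ := by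
      rw [norm_mul, Complex.norm_real, Real.norm_eq_abs]
      have d1 := hJ h l hh.1 hl.1 (hh.2.trans (Nat.le_mul_of_pos_left M (by omega)))
        (hl.2.trans (Nat.le_mul_of_pos_left M (by omega)))
      exact mul_le_mul hκb d1 (norm_nonneg _) (by positivity)
    refine (norm_sub_le _ _).trans ((add_le_add b1 b2).trans ?_)
    have hQQ : (Q : ℝ) * Q + (1 + Q) ≤ 3 * (Q : ℝ) ^ 2 := by nlinarith
    nlinarith
  have hsumf : (∑ h ∈ Icc 1 M, ‖f h‖) ^ 2 ≤ (M : ℝ) ^ 2 * ∑ n ∈ Icc 1 M, ‖f n‖ ^ 2 / n := by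
    have c1 := sum_mul_sq_le_sq_mul_sq (Icc 1 M) (fun n : ℕ => Real.sqrt n)
      (fun n : ℕ => ‖f n‖ / Real.sqrt n)
    have c2 : ∑ n ∈ Icc 1 M, Real.sqrt n * (‖f n‖ / Real.sqrt n) = ∑ h ∈ Icc 1 M, ‖f h‖ := by
      refine sum_congr rfl fun n hn => ?_
      rw [mem_Icc] at hn
      have : Real.sqrt n ≠ 0 := (Real.sqrt_pos.2 (by exact_mod_cast hn.1)).ne'
      field_simp
    have c3 : ∑ n ∈ Icc 1 M, Real.sqrt n ^ 2 ≤ (M : ℝ) ^ 2 := by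
      calc ∑ n ∈ Icc 1 M, Real.sqrt n ^ 2 ≤ ∑ n ∈ Icc 1 M, (M : ℝ) := by
            refine sum_le_sum fun n hn => ?_
            rw [mem_Icc] at hn
            rw [Real.sq_sqrt (Nat.cast_nonneg n)]
            exact_mod_cast hn.2
        _ = (M : ℝ) ^ 2 := by
          rw [sum_const, Nat.card_Icc, Nat.add_sub_cancel, nsmul_eq_mul]
          ring
    have c4 : ∑ n ∈ Icc 1 M, (‖f n‖ / Real.sqrt n) ^ 2 = ∑ n ∈ Icc 1 M, ‖f n‖ ^ 2 / n := by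
      refine sum_congr rfl fun n _ => ?_
      rw [div_pow, Real.sq_sqrt (Nat.cast_nonneg n)]
    rw [c2, c4] at c1
    refine c1.trans (mul_le_mul_of_nonneg_right c3 (sum_nonneg fun n _ => by positivity))
  calc _ = ‖∑ h ∈ Icc 1 M, ∑ l ∈ Icc 1 M, ((f h * (starRingEnd ℂ) (f l)) *
        (∑ u ∈ Icc 1 Q, v u * ∑ u' ∈ Icc 1 Q, v u' * J (u * h) (u' * l)) -
        (κ : ℂ) * ((f h * (starRingEnd ℂ) (f l)) * J h l))‖ := by
        congr 1
        rw [mul_sum, ← sum_sub_distrib]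
        refine sum_congr rfl fun h _ => ?_
        rw [mul_sum, ← sum_sub_distrib]
    _ ≤ ∑ h ∈ Icc 1 M, ∑ l ∈ Icc 1 M, ‖f h‖ * ‖f l‖ * (3 * (Q : ℝ) ^ 2 * δ) := by
        refine (norm_sum_le _ _).trans (sum_le_sum fun h hh => ?_)
        exact (norm_sum_le _ _).trans (sum_le_sum fun l hl => hpair h hh l hl)
    _ = (∑ h ∈ Icc 1 M, ‖f h‖) ^ 2 * (3 * (Q : ℝ) ^ 2 * δ) := by
        rw [sq (∑ h ∈ Icc 1 M, ‖f h‖), sum_mul_sum, sum_mul]
        refine sum_congr rfl fun h _ => ?_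
        rw [sum_mul]
    _ ≤ ((M : ℝ) ^ 2 * ∑ n ∈ Icc 1 M, ‖f n‖ ^ 2 / n) * (3 * (Q : ℝ) ^ 2 * δ) :=
        mul_le_mul_of_nonneg_right hsumf (by positivity)
    _ = _ := by ring

end Pool.Agent.Run7.h921.DW
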