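import Pool.Agent.Run7.h74.DW.Iface
import Pool.Agent.Run7.h921.DW.O3a
import Pool.Agent.Run7.h921.DW.H2a

/-!
# MP_fa2474_nt: piece O3, the first odd harmonic
-/

set_option autoImplicit false

namespace Pool.Agent.Run7.h921.DW

open Finset Complex MeasureTheory Filter
open Pool.Agent.Q97.UM (zt dp N2)
open Pool.Agent.Run7.h74.DW

/-- integrals of finite sums -/
theorem isum {ι : Type*} (s : Finset ι) (g : ι → ℝ → ℂ) (a b : ℝ)
    (hg : ∀ i ∈ s, Continuous (g i)) :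
    ∫ t in a..b, ∑ i ∈ s, g i t = ∑ i ∈ s, ∫ t in a..b, g i t :=
  intervalIntegral.integral_finsetSum fun i hi => (hg i hi).intervalIntegrable _ _

/-- a monomial -/
noncomputable def mo (n : ℕ) (t : ℝ) : ℂ := (n : ℂ) ^ (-(1 / 2 + t * I))

theorem mo_mul (m n : ℕ) (t : ℝ) : mo (m * n) t = mo m t * mo n t := by
  unfold mo
  rw [Nat.cast_mul, Complex.natCast_mul_natCast_cpow]

theorem cont_mo {n : ℕ} (hn : 1 ≤ n) : Continuous (mo n) := cont_cp hn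

theorem dp_mo (M : ℕ) (f : ℕ → ℂ) (t : ℝ) : dp M f t = ∑ n ∈ Icc 1 M, f n * mo n t := rfl

/-- the integral of a monomial against zeta -/
noncomputable def JJ (a b : ℝ) (h l : ℕ) : ℂ :=
  ∫ t in a..b, (wt a b t : ℂ) * (zt t * (mo h t * (starRingEnd ℂ) (mo l t)))

theorem cont_wt (a b : ℝ) : Continuous fun t : ℝ => (wt a b t : ℂ) := by
  unfold wt
  fun_prop

theorem cont_zt : Continuous zt := cont_zeta

/-- the pointwise expansion -/
theorem point (Q M : ℕ) (v f : ℕ → ℂ) (hv : ∀ n, (starRingEnd ℂ) (v n) = v n) (t : ℝ) :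
    ((‖dp Q v t‖ ^ 2 * ‖dp M f t‖ ^ 2 : ℝ) : ℂ) =
      ∑ h ∈ Icc 1 M, ∑ l ∈ Icc 1 M, ∑ u ∈ Icc 1 Q, ∑ u' ∈ Icc 1 Q,
        (f h * (starRingEnd ℂ) (f l)) * (v u * (v u' * (mo (u * h) t *
          (starRingEnd ℂ) (mo (u' * l) t)))) := by
  have e1 : ((‖dp Q v t‖ ^ 2 * ‖dp M f t‖ ^ 2 : ℝ) : ℂ) =
      (dp M f t * (starRingEnd ℂ) (dp M f t)) * (dp Q v t * (starRingEnd ℂ) (dp Q v t)) := by
    rw [Complex.mul_conj', Complex.mul_conj']
    push_cast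
    ring
  have e2 : (starRingEnd ℂ) (dp M f t) = ∑ l ∈ Icc 1 M, (starRingEnd ℂ) (f l) *
      (starRingEnd ℂ) (mo l t) := by
    rw [dp_mo, map_sum]
    exact sum_congr rfl fun l _ => map_mul _ _ _
  have e3 : (starRingEnd ℂ) (dp Q v t) = ∑ u ∈ Icc 1 Q, v u * (starRingEnd ℂ) (mo u t) := by
    rw [dp_mo, map_sum]
    exact sum_congr rfl fun l _ => by rw [map_mul, hv]
  rw [e1, e2, e3, dp_mo, dp_mo, sum_mul_sum, sum_mul_sum, sum_mul]
  refine sum_congr rfl fun h _ => ?_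
  rw [sum_mul]
  refine sum_congr rfl fun l _ => ?_
  rw [mul_sum]
  refine sum_congr rfl fun u _ => ?_
  rw [mul_sum]
  refine sum_congr rfl fun u' _ => ?_
  rw [mo_mul, mo_mul, map_mul]
  ring

/-- **the expansion of the integral** -/
theorem expand (a b : ℝ) (Q M : ℕ) (v f : ℕ → ℂ) (hv : ∀ n, (starRingEnd ℂ) (v n) = v n) :
    ∫ t in a..b, (wt a b t : ℂ) * (zt t * ((‖dp Q v t‖ ^ 2 * ‖dp M f t‖ ^ 2 : ℝ) : ℂ)) =
      ∑ h ∈ Icc 1 M, ∑ l ∈ Icc 1 M, (f h * (starRingEnd ℂ) (f l)) *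
        ∑ u ∈ Icc 1 Q, v u * ∑ u' ∈ Icc 1 Q, v u' * JJ a b (u * h) (u' * l) := by
  have hc : ∀ m n : ℕ, 1 ≤ m → 1 ≤ n → ∀ c : ℂ, Continuous fun t : ℝ =>
      c * ((wt a b t : ℂ) * (zt t * (mo m t * (starRingEnd ℂ) (mo n t)))) := by
    intro m n hm hn c
    exact continuous_const.mul ((cont_wt a b).mul (cont_zt.mul ((cont_mo hm).mul
      (Complex.continuous_conj.comp (cont_mo hn)))))
  have e1 : ∀ t : ℝ, (wt a b t : ℂ) * (zt t * ((‖dp Q v t‖ ^ 2 * ‖dp M f t‖ ^ 2 : ℝ) : ℂ)) =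
      ∑ h ∈ Icc 1 M, ∑ l ∈ Icc 1 M, ∑ u ∈ Icc 1 Q, ∑ u' ∈ Icc 1 Q,
        (f h * (starRingEnd ℂ) (f l) * (v u * v u')) * ((wt a b t : ℂ) * (zt t *
          (mo (u * h) t * (starRingEnd ℂ) (mo (u' * l) t)))) := by
    intro t
    rw [point Q M v f hv t, mul_sum, mul_sum]
    refine sum_congr rfl fun h _ => ?_
    rw [mul_sum, mul_sum]
    refine sum_congr rfl fun l _ => ?_
    rw [mul_sum, mul_sum]
    refine sum_congr rfl fun u _ => ?_
    rw [mul_sum, mul_sum]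
    refine sum_congr rfl fun u' _ => ?_
    ring
  have hpos : ∀ {n m : ℕ} {A B : ℕ}, n ∈ Icc 1 A → m ∈ Icc 1 B → 1 ≤ n * m :=
    fun hn hm => Nat.mul_pos (mem_Icc.1 hn).1 (mem_Icc.1 hm).1
  simp_rw [e1]
  rw [isum]
  swap
  · exact fun h hh => continuous_finsetSum _ fun l hl => continuous_finsetSum _ fun u hu =>
      continuous_finsetSum _ fun u' hu' => hc _ _ (hpos hu hh) (hpos hu' hl) _
  refine sum_congr rfl fun h hh => ?_
  rw [isum]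
  swap
  · exact fun l hl => continuous_finsetSum _ fun u hu =>
      continuous_finsetSum _ fun u' hu' => hc _ _ (hpos hu hh) (hpos hu' hl) _
  refine sum_congr rfl fun l hl => ?_
  rw [isum, mul_sum]
  swap
  · exact fun u hu => continuous_finsetSum _ fun u' hu' => hc _ _ (hpos hu hh) (hpos hu' hl) _
  refine sum_congr rfl fun u hu => ?_
  rw [isum, mul_sum, mul_sum]
  swap
  · exact fun u' hu' => hc _ _ (hpos hu hh) (hpos hu' hl) _
  refine sum_congr rfl fun u' _ => ?_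
  rw [intervalIntegral.integral_const_mul]
  unfold JJ
  ring

/-- the plain integral -/
theorem expand1 (a b : ℝ) (M : ℕ) (f : ℕ → ℂ) :
    ∫ t in a..b, (wt a b t : ℂ) * (zt t * ((‖dp M f t‖ ^ 2 : ℝ) : ℂ)) =
      ∑ h ∈ Icc 1 M, ∑ l ∈ Icc 1 M, (f h * (starRingEnd ℂ) (f l)) * JJ a b h l := by
  have h1 := expand a b 1 M (fun _ => 1) f (fun _ => map_one _)
  have e1 : ∀ t : ℝ, dp 1 (fun _ => 1) t = 1 := by
    intro t
    rw [dp_mo, Icc_self, sum_singleton]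
    unfold mo
    rw [Nat.cast_one, Complex.one_cpow, mul_one]
  simp only [e1, norm_one, one_pow, one_mul, Icc_self, sum_singleton] at h1
  exact h1

theorem t_O3 : J_O3 := by
  intro hH2
  have h3 : ∀ᶠ T : ℝ in atTop, 3 ≤ T ^ (17 / 200 : ℝ) :=
    (tendsto_rpow_atTop (by norm_num)).eventually_ge_atTop 3
  filter_upwards [hH2, h3, eventually_ge_atTop (1 : ℝ)] with T hT h3 hT1
  intro a b hab Q M hQ1 hQ hM P hP f hf
  have hT0 : 0 < T := by linarith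
  classical
  have hv1 : vP P 1 = 1 := by
    unfold vP
    rw [if_pos rfl]
  have hv2 : ∀ p ∈ P, vP P p = -1 / 2 := by
    intro p hp
    unfold vP
    rw [if_neg (hP p hp).1.ne_one, if_pos hp]
  have hv0 : ∀ n, n ≠ 1 → n ∉ P → vP P n = 0 := by
    intro n hn hnP
    unfold vP
    rw [if_neg hn, if_neg hnP]
  have hvc : ∀ n, (starRingEnd ℂ) (vP P n) = vP P n := by
    intro n
    by_cases hn1 : n = 1
    · rw [hn1, hv1, map_one]
    · by_cases hnP : n ∈ P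
      · rw [hv2 n hnP, map_div₀, map_neg, map_one, map_ofNat]
      · rw [hv0 n hn1 hnP, map_zero]
  rw [expand a b Q M (vP P) f hvc, expand1]
  have hQM : ((Q * M : ℕ) : ℝ) ≤ T ^ (1 / 50 : ℝ) := by
    push_cast
    calc (Q : ℝ) * M ≤ T ^ (1 / 100 : ℝ) * T ^ (1 / 100 : ℝ) :=
          mul_le_mul hQ hM (Nat.cast_nonneg _) (by positivity)
      _ = T ^ (1 / 50 : ℝ) := by
        rw [← Real.rpow_add hT0]
        norm_num
  have hJ : ∀ h l, 1 ≤ h → 1 ≤ l → h ≤ Q * M → l ≤ Q * M →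
      ‖JJ a b h l - GG (2 / 3 * (b - a)) h l‖ ≤ T ^ (1 / 8 : ℝ) := by
    intro h l hh hl hhQ hlQ
    have h1 : (h : ℝ) ≤ T ^ (1 / 50 : ℝ) := le_trans (by exact_mod_cast hhQ) hQM
    have h2 : (l : ℝ) ≤ T ^ (1 / 50 : ℝ) := le_trans (by exact_mod_cast hlQ) hQM
    exact hT a b hab h l hh hl h1 h2
  refine (core hQ1 hP (vP P) hv1 hv2 hv0 f hf (2 / 3 * (b - a)) (T ^ (1 / 8 : ℝ)) (by positivity)
    (JJ a b) hJ).trans ?_
  have hN : ∑ n ∈ Icc 1 M, ‖f n‖ ^ 2 / (n : ℝ) = N2 M f := rfl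
  rw [hN]
  have hN0 : 0 ≤ N2 M f := by
    rw [← hN]
    exact sum_nonneg fun n _ => by positivity
  refine mul_le_mul_of_nonneg_right ?_ hN0
  have hQ2 : (Q : ℝ) ^ 2 * (M : ℝ) ^ 2 ≤ T ^ (1 / 25 : ℝ) := by
    have h1 : (Q : ℝ) * M ≤ T ^ (1 / 50 : ℝ) := by
      rw [← Nat.cast_mul]
      exact hQM
    calc (Q : ℝ) ^ 2 * (M : ℝ) ^ 2 = ((Q : ℝ) * M) ^ 2 := by ring
      _ ≤ (T ^ (1 / 50 : ℝ)) ^ 2 := pow_le_pow_left₀ (by positivity) h1 2
      _ = T ^ (1 / 25 : ℝ) := by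
        rw [← Real.rpow_natCast, ← Real.rpow_mul hT0.le]
        norm_num
  calc 3 * (Q : ℝ) ^ 2 * (M : ℝ) ^ 2 * T ^ (1 / 8 : ℝ) =
        3 * ((Q : ℝ) ^ 2 * (M : ℝ) ^ 2) * T ^ (1 / 8 : ℝ) := by ring
    _ ≤ T ^ (17 / 200 : ℝ) * T ^ (1 / 25 : ℝ) * T ^ (1 / 8 : ℝ) := by gcongr
    _ = T ^ (1 / 4 : ℝ) := by
      rw [← Real.rpow_add hT0, ← Real.rpow_add hT0]
      norm_num

end Pool.Agent.Run7.h921.DW
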